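import Mathlib

namespace Pool.Agent.Results.MP_607283_al.AllLCA
open Topology

/-- the intersection of the kernels of all ordinary representations -/
def KO (G : Type) [Group G] [TopologicalSpace G] : Subgroup G :=
  ⨅ (n : ℕ) (ρ : G →* GL (Fin n) ℂ) (_ : Continuous ρ), ρ.ker

variable (A : Type) [CommGroup A]

abbrev D : Type := (A × ℕ × Bool) →₀ ℤ

/-- bimultiplicative cocycle -/
noncomputable def β (d e : D A) : A := d.prod fun s m => s.1 ^ (m * e (s.1, s.2.1, true) *
  if s.2.2 then 0 else 1)

variable {A}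

lemma β_add_left (d d' e : D A) : β A (d + d') e = β A d e * β A d' e :=
  Finsupp.prod_add_index' (by simp) fun _ _ _ => by rw [← zpow_add]; congr 1; ring

lemma β_add_right (d e e' : D A) : β A d (e + e') = β A d e * β A d e' := by
  unfold β
  rw [← Finsupp.prod_mul]
  refine Finsupp.prod_congr fun _ _ => ?_
  rw [← zpow_add]; congr 1; rw [Finsupp.add_apply]; ring

lemma β0 (e : D A) : β A 0 e = 1 := by simp [β]
lemma β0' (e : D A) : β A e 0 = 1 := by simp [β]
lemma β_neg (d e : D A) : β A (-d) e = (β A d e)⁻¹ :=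
  eq_inv_of_mul_eq_one_left (by rw [← β_add_left, neg_add_cancel, β0])

variable (A) in
@[ext] structure H where
  a : A
  d : D A

noncomputable instance : Mul (H A) := ⟨fun x y => ⟨x.a * y.a * β A x.d y.d, x.d + y.d⟩⟩
noncomputable instance : One (H A) := ⟨⟨1, 0⟩⟩
noncomputable instance : Inv (H A) := ⟨fun x => ⟨x.a⁻¹ * β A x.d x.d, -x.d⟩⟩
@[simp] lemma mul_a (x y : H A) : (x * y).a = x.a * y.a * β A x.d y.d := rfl
@[simp] lemma mul_d (x y : H A) : (x * y).d = x.d + y.d := rfl
@[simp] lemma one_a : (1 : H A).a = 1 := rfl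
@[simp] lemma one_d : (1 : H A).d = 0 := rfl
@[simp] lemma inv_a (x : H A) : x⁻¹.a = x.a⁻¹ * β A x.d x.d := rfl
@[simp] lemma inv_d (x : H A) : x⁻¹.d = -x.d := rfl

noncomputable instance : Group (H A) := Group.ofLeftAxioms
  (fun x y z => by
    ext1
    · simp only [mul_a, mul_d, β_add_left, β_add_right]; ac_rfl
    · simp [add_assoc])
  (fun x => by ext1 <;> simp [β0]) (fun x => by ext1 <;> simp [β_neg])

instance : TopologicalSpace (D A) := ⊥
instance : DiscreteTopology (D A) := ⟨rfl⟩

def eqv : H A ≃ A × D A := ⟨fun x => (x.a, x.d), fun x => ⟨x.1, x.2⟩, fun _ => rfl, fun _ => rfl⟩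

variable [TopologicalSpace A]

instance : TopologicalSpace (H A) := TopologicalSpace.induced eqv inferInstance

def hom : H A ≃ₜ A × D A := eqv.toHomeomorphOfIsInducing ⟨rfl⟩

lemma ca : Continuous fun x : H A => x.a := continuous_fst.comp hom.continuous
lemma cd : Continuous fun x : H A => x.d := continuous_snd.comp hom.continuous

instance [IsTopologicalGroup A] : IsTopologicalGroup (H A) where
  continuous_mul := by
    rw [continuous_induced_rng]
    have h1 : Continuous fun p : H A × H A => (p.1.d, p.2.d) :=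
      (cd.comp continuous_fst).prodMk (cd.comp continuous_snd)
    exact (((ca.comp continuous_fst).mul (ca.comp continuous_snd)).mul
      ((continuous_of_discreteTopology (f := fun q : D A × D A => β A q.1 q.2)).comp h1)).prodMk
      ((continuous_of_discreteTopology (f := fun q : D A × D A => q.1 + q.2)).comp h1)
  continuous_inv := by
    rw [continuous_induced_rng]
    exact (ca.inv.mul ((continuous_of_discreteTopology (f := fun q : D A => β A q q)).comp cd)).prodMk
      ((continuous_of_discreteTopology (f := fun q : D A => -q)).comp cd)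

omit [TopologicalSpace A] in
lemma kill {n : ℕ} (ρ : H A →* GL (Fin n) ℂ) (a : A) : ρ ⟨a, 0⟩ = 1 := by
  classical
  by_contra hc
  let X : ℕ → H A := fun i => ⟨1, Finsupp.single (a, i, false) 1⟩
  let Y : ℕ → H A := fun i => ⟨1, Finsupp.single (a, i, true) 1⟩
  have hXY : ∀ i j, X i * Y j = (if i = j then ⟨a, 0⟩ else 1) * Y j * X i := by
    intro i j
    split_ifs with h
    · ext1 <;> simp [X, Y, β, h, add_comm]
    · ext1 <;> simp [X, Y, β, Ne.symm h, add_comm, Finsupp.single_apply]
  have hli : LinearIndependent ℂ fun i => ((ρ (X i) : GL (Fin n) ℂ) : Matrix (Fin n) (Fin n) ℂ) := by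
    rw [linearIndependent_iff']
    intro s g hg j hj
    have hYX : ∀ i, i ≠ j → ρ (X i) * ρ (Y j) = ρ (Y j) * ρ (X i) := fun i h => by
      rw [← map_mul, hXY, if_neg h, one_mul, map_mul]
    have h1 : ∑ i ∈ s, g i • (((ρ (X i) * ρ (Y j) : GL (Fin n) ℂ) : Matrix (Fin n) (Fin n) ℂ) -
        (ρ (Y j) * ρ (X i) : GL (Fin n) ℂ)) = 0 := by
      have e1 := congrArg (· * ((ρ (Y j) : GL (Fin n) ℂ) : Matrix (Fin n) (Fin n) ℂ)) hg
      have e2 := congrArg (((ρ (Y j) : GL (Fin n) ℂ) : Matrix (Fin n) (Fin n) ℂ) * ·) hg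
      simp only [Finset.sum_mul, Finset.mul_sum, smul_mul_assoc, mul_smul_comm, zero_mul,
        mul_zero] at e1 e2
      simp only [smul_sub, Finset.sum_sub_distrib, Units.val_mul, e1, e2, sub_self]
    rw [Finset.sum_eq_single j (fun i _ h => by rw [hYX i h, sub_self, smul_zero])
      (fun h => absurd hj h), smul_eq_zero, sub_eq_zero, Units.val_inj, ← map_mul, hXY,
      if_pos rfl, map_mul, map_mul, mul_assoc, mul_eq_right] at h1
    exact h1.resolve_right hc
  exact Module.Finite.not_linearIndependent_of_infinite _ hli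

lemma mem_KO (x : H A) : x ∈ KO (H A) ↔ x.d = 0 := by
  simp only [KO, Subgroup.mem_iInf, MonoidHom.mem_ker]
  refine ⟨fun h => ?_, fun h n ρ _ => ?_⟩
  · ext s
    let u : GL (Fin 1) ℂ := Units.map (Matrix.scalar (Fin 1)).toMonoidHom (Units.mk0 2 two_ne_zero)
    let ρ : H A →* GL (Fin 1) ℂ := MonoidHom.mk' (fun x => u ^ x.d s) fun x y => by simp [zpow_add]
    have := h 1 ρ ((continuous_of_discreteTopology (f := fun q : D A => u ^ q s)).comp cd)
    change u ^ x.d s = 1 at this
    rw [← map_zpow, ← map_one (Units.map (Matrix.scalar (Fin 1)).toMonoidHom)] at this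
    have h2 := congrArg (fun z : ℂˣ => ‖(z : ℂ)‖)
      (Units.map_injective (fun _ _ h => Matrix.scalar_inj.1 h) this)
    simpa [zpow_eq_one_iff_right₀] using h2
  · obtain ⟨a, d⟩ := x
    obtain rfl : d = 0 := h
    exact kill ρ a

theorem result (A : Type) [CommGroup A] [TopologicalSpace A] [IsTopologicalGroup A] [T2Space A]
    [LocallyCompactSpace A] : ∃ (G : Type) (_ : Group G) (_ : TopologicalSpace G),
    IsTopologicalGroup G ∧ T2Space G ∧ LocallyCompactSpace G ∧ Nonempty (A ≃ₜ* KO G) := by
  refine ⟨H A, inferInstance, inferInstance, inferInstance, hom.symm.t2Space,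
    hom.isOpenEmbedding.locallyCompactSpace, ⟨?_⟩⟩
  exact
    { toFun := fun a => ⟨⟨a, 0⟩, (mem_KO _).2 rfl⟩
      invFun := fun x => x.1.a
      left_inv := fun _ => rfl
      right_inv := fun x => Subtype.ext (H.ext rfl ((mem_KO _).1 x.2).symm)
      map_mul' := fun a b => Subtype.ext (by ext1 <;> simp [β0])
      continuous_toFun := Continuous.subtype_mk
        (hom.symm.continuous.comp (continuous_id.prodMk continuous_const)) _
      continuous_invFun := ca.comp continuous_subtype_val }

end Pool.Agent.Results.MP_607283_al.AllLCA
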